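import Pool.Graph.R_seed8.Helper300.JonesT

/-!
# The structure of the continua for which Jones's set function is continuous
-/

set_option autoImplicit false

universe u

open Set Topology TopologicalSpace

namespace Pool.Agent.H2.JT

open Pool.Agent.Helper300.JonesT

section

variable {S : Type u} [TopologicalSpace S]

/-- preimages of connected closed sets under a closed map with connected fibres -/
theorem conn_preimage {Q : Type u} [TopologicalSpace Q] [CompactSpace S] [T2Space Q] {q : S → Q}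
    (hq : Continuous q) (hsurj : Function.Surjective q) (hfib : ∀ y, IsConnected (q ⁻¹' {y}))
    {C : Set Q} (hC : IsClosed C) (hCc : IsConnected C) : IsConnected (q ⁻¹' C) := by
  have hcl : IsClosedMap q := hq.isClosedMap
  refine ⟨?_, ?_⟩
  · obtain ⟨y, hy⟩ := hCc.nonempty
    obtain ⟨x, rfl⟩ := hsurj y
    exact ⟨x, hy⟩
  rw [isPreconnected_iff_subset_of_fully_disjoint_closed (hC.preimage hq)]
  intro P R hP hR hPRu hPR
  have hfibre : ∀ y ∈ C, q ⁻¹' {y} ⊆ P ∨ q ⁻¹' {y} ⊆ R := by
    intro y hy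
    have h1 : q ⁻¹' {y} ⊆ P ∪ R := by
      intro x hx
      apply hPRu
      rw [mem_preimage, mem_singleton_iff] at hx
      rw [mem_preimage, hx]
      exact hy
    exact isPreconnected_iff_subset_of_disjoint_closed.1 (hfib y).isPreconnected P R hP hR h1
      (by rw [hPR.inter_eq, inter_empty])
  have hcover : C ⊆ (q '' (P ∩ q ⁻¹' C)) ∪ (q '' (R ∩ q ⁻¹' C)) := by
    intro y hy
    obtain ⟨x, rfl⟩ := hsurj y
    rcases hPRu (show x ∈ q ⁻¹' C from hy) with h | h
    · exact Or.inl ⟨x, ⟨h, hy⟩, rfl⟩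
    · exact Or.inr ⟨x, ⟨h, hy⟩, rfl⟩
  have hc1 : IsClosed (q '' (P ∩ q ⁻¹' C)) := hcl _ (hP.inter (hC.preimage hq))
  have hc2 : IsClosed (q '' (R ∩ q ⁻¹' C)) := hcl _ (hR.inter (hC.preimage hq))
  have hdis : C ∩ (q '' (P ∩ q ⁻¹' C) ∩ q '' (R ∩ q ⁻¹' C)) = ∅ := by
    rw [eq_empty_iff_forall_notMem]
    rintro y ⟨hy, ⟨x, ⟨hxP, _⟩, hxy⟩, ⟨z, ⟨hzR, _⟩, hzy⟩⟩
    rcases hfibre y hy with h | h
    · exact disjoint_left.1 hPR (h (show z ∈ q ⁻¹' {y} from hzy)) hzR
    · exact disjoint_left.1 hPR hxP (h (show x ∈ q ⁻¹' {y} from hxy))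
  rcases isPreconnected_iff_subset_of_disjoint_closed.1 hCc.isPreconnected _ _ hc1 hc2 hcover
    hdis with h | h
  · left
    intro x hx
    rcases hPRu hx with h1 | h1
    · exact h1
    · exfalso
      have : q x ∈ C ∩ (q '' (P ∩ q ⁻¹' C) ∩ q '' (R ∩ q ⁻¹' C)) :=
        ⟨hx, h hx, x, ⟨h1, hx⟩, rfl⟩
      rw [hdis] at this
      exact this
  · right
    intro x hx
    rcases hPRu hx with h1 | h1
    · exfalso
      have : q x ∈ C ∩ (q '' (P ∩ q ⁻¹' C) ∩ q '' (R ∩ q ⁻¹' C)) :=
        ⟨hx, ⟨x, ⟨h1, hx⟩, rfl⟩, h hx⟩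
      rw [hdis] at this
      exact this
    · exact h1

variable [CompactSpace S] [T2Space S] [ConnectedSpace S]

/-- the relation `T x = T y` -/
def rel (S : Type u) [TopologicalSpace S] : Setoid S where
  r x y := T ({x} : Set S) = T ({y} : Set S)
  iseqv := ⟨fun _ => rfl, fun h => h.symm, fun h1 h2 => h1.trans h2⟩

theorem rel_iff (h : LSC S) (x y : S) : (rel S).r x y ↔ x ∈ T ({y} : Set S) := by
  constructor
  · intro hxy
    have : T ({x} : Set S) = T ({y} : Set S) := hxy
    rw [← this]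
    exact self_mem_T x
  · intro hxy
    exact T_eq_of_mem h hxy

theorem quot_iff (h : LSC S) (x y : S) :
    (Quotient.mk (rel S) x = Quotient.mk (rel S) y) ↔ x ∈ T ({y} : Set S) := by
  rw [Quotient.eq]
  exact rel_iff h x y

/-- The decomposition of `S` into the sets `T x`, for continuous `T`. -/
theorem decomposition (h : LSC S) :
    ∃ (Q : Type u) (_ : TopologicalSpace Q) (q : S → Q), CompactSpace Q ∧ T2Space Q ∧
      ConnectedSpace Q ∧ LocallyConnectedSpace Q ∧ Continuous q ∧ IsOpenMap q ∧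
      Function.Surjective q ∧ (∀ y, IsConnected (q ⁻¹' {y})) ∧
      ∀ A : Set S, IsClosed A → T A = q ⁻¹' (q '' A) := by
  have hpre : ∀ G : Set S, Quotient.mk (rel S) ⁻¹' (Quotient.mk (rel S) '' G) =
      {x | (T ({x} : Set S) ∩ G).Nonempty} := by
    intro G
    ext x
    constructor
    · rintro ⟨g, hg, hgx⟩
      exact ⟨g, (quot_iff h g x).1 hgx, hg⟩
    · rintro ⟨g, hg1, hg2⟩
      exact ⟨g, hg2, (quot_iff h g x).2 hg1⟩
  have hqc : Continuous (Quotient.mk (rel S)) := continuous_quotient_mk'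
  have hqo : IsOpenMap (Quotient.mk (rel S)) := by
    intro G hG
    rw [← isQuotientMap_quotient_mk'.isOpen_preimage]
    change IsOpen (Quotient.mk (rel S) ⁻¹' (Quotient.mk (rel S) '' G))
    rw [hpre]
    exact isOpen_T_inter h hG
  have hqs : Function.Surjective (Quotient.mk (rel S)) := Quotient.mk_surjective
  have hqq : IsOpenQuotientMap (Quotient.mk (rel S)) := ⟨hqs, hqc, hqo⟩
  have ht2 : T2Space (Quotient (rel S)) := by
    rw [t2Space_iff_of_isOpenQuotientMap hqq]
    rw [← isOpen_compl_iff, isOpen_iff_mem_nhds]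
    rintro ⟨x, y⟩ hxy
    have hx : x ∉ T ({y} : Set S) := fun hcon => hxy ((quot_iff h x y).2 hcon)
    obtain ⟨U, G, hU, hG, hxU, hyG, hUG⟩ := SeparatedNhds.of_isCompact_isCompact
      (isCompact_singleton (x := x)) (isClosed_T ({y} : Set S)).isCompact
      (disjoint_singleton_left.2 hx)
    have h1 : U ×ˢ {y' : S | T ({y'} : Set S) ⊆ G} ∈ 𝓝 (x, y) :=
      (hU.prod (isOpen_T_subset hG)).mem_nhds ⟨hxU rfl, hyG⟩
    filter_upwards [h1] with p hp
    intro hcon
    have h2 : p.1 ∈ T ({p.2} : Set S) := (quot_iff h p.1 p.2).1 hcon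
    exact disjoint_left.1 hUG hp.1 (hp.2 h2)
  have hT : ∀ A : Set S, IsClosed A →
      T A = Quotient.mk (rel S) ⁻¹' (Quotient.mk (rel S) '' A) := by
    intro A hA
    rw [T_eq_biUnion h hA]
    ext x
    rw [mem_iUnion₂, mem_preimage]
    constructor
    · rintro ⟨a, ha, hx⟩
      exact ⟨a, ha, ((quot_iff h x a).2 hx).symm⟩
    · rintro ⟨a, ha, hx⟩
      exact ⟨a, ha, (quot_iff h x a).1 hx.symm⟩
  refine ⟨Quotient (rel S), inferInstance, Quotient.mk (rel S), inferInstance, ht2, inferInstance,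
    ?_, hqc, hqo, hqs, ?_, hT⟩
  · rw [locallyConnectedSpace_iff_connected_subsets]
    intro y U hU
    obtain ⟨x, rfl⟩ := hqs y
    have hA : IsClosed (Quotient.mk (rel S) ⁻¹' (interior U)ᶜ) :=
      isOpen_interior.isClosed_compl.preimage hqc
    have hx : x ∉ T (Quotient.mk (rel S) ⁻¹' (interior U)ᶜ) := by
      rw [hT _ hA]
      rintro ⟨a, ha, hax⟩
      apply ha
      rw [hax]
      exact mem_interior_iff_mem_nhds.2 hU
    obtain ⟨W, hW1, hW2, hW3, hW4⟩ := notMem_T.1 hx
    refine ⟨Quotient.mk (rel S) '' W, hqo.image_mem_nhds hW3,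
      hW2.isPreconnected.image _ hqc.continuousOn, ?_⟩
    rintro _ ⟨w, hw, rfl⟩
    by_contra hcon
    exact disjoint_left.1 hW4 hw (fun h5 => hcon (interior_subset h5))
  · intro y
    obtain ⟨x, rfl⟩ := hqs y
    have : Quotient.mk (rel S) ⁻¹' {Quotient.mk (rel S) x} = T ({x} : Set S) := by
      ext z
      rw [mem_preimage, mem_singleton_iff]
      exact quot_iff h z x
    rw [this]
    exact isConnected_T_singleton x

omit [T2Space S] [ConnectedSpace S] in
/-- `T A ⊆ q⁻¹ (q A)` for a monotone map `q` onto a locally connected continuum. -/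
theorem T_subset_of_map {Q : Type u} [TopologicalSpace Q] [CompactSpace Q] [T2Space Q]
    [LocallyConnectedSpace Q] {q : S → Q} (hq : Continuous q) (hsurj : Function.Surjective q)
    (hfib : ∀ y, IsConnected (q ⁻¹' {y})) {A : Set S} (hA : IsClosed A) :
    T A ⊆ q ⁻¹' (q '' A) := by
  intro p hp
  by_contra hcon
  have hcl : IsClosed (q '' A) := hq.isClosedMap _ hA
  have hn : (q '' A)ᶜ ∈ 𝓝 (q p) := hcl.isOpen_compl.mem_nhds hcon
  obtain ⟨C, hC1, hC2, hC3⟩ := exists_mem_nhds_isClosed_subset hn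
  obtain ⟨V, hV1, hV2, hV3⟩ := locallyConnectedSpace_iff_connected_subsets.1 inferInstance _ C hC1
  have hpV : q p ∈ V := mem_of_mem_nhds hV1
  have hVc : IsConnected (closure V) := IsConnected.closure ⟨⟨_, hpV⟩, hV2⟩
  have hW := conn_preimage hq hsurj hfib isClosed_closure hVc
  have hWn : q ⁻¹' closure V ∈ 𝓝 p :=
    hq.continuousAt (Filter.mem_of_superset hV1 subset_closure)
  obtain ⟨a, ha1, ha2⟩ := hp _ (isClosed_closure.preimage hq) hW hWn
  exact hC3 (closure_minimal hV3 hC2 ha1) ⟨a, ha2, rfl⟩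

omit [CompactSpace S] [T2Space S] in
/-- In a connected space, a connected closed set together with one half of a separation of its
complement is connected. -/
theorem conn_union {W P R : Set S} (hW : IsClosed W) (hWc : IsConnected W) (hP : IsClosed P)
    (hR : IsClosed R) (hPR : Disjoint P R) (hcov : W ∪ (P ∪ R) = univ) : IsConnected (W ∪ P) := by
  refine ⟨hWc.nonempty.mono subset_union_left, ?_⟩
  rw [isPreconnected_iff_subset_of_fully_disjoint_closed (hW.union hP)]
  have key : ∀ A B : Set S, IsClosed A → IsClosed B → W ∪ P ⊆ A ∪ B → Disjoint A B → W ⊆ A →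
      W ∪ P ⊆ A := by
    intro A B hA hB hAB hd hWA
    -- `(P ∩ B) ` is clopen
    have h1 : IsClosed (P ∩ B) := hP.inter hB
    have h2 : IsClosed (A ∪ R) := hA.union hR
    have h3 : (P ∩ B)ᶜ = A ∪ R := by
      ext x
      constructor
      · intro hx
        have hxu : x ∈ W ∪ (P ∪ R) := by rw [hcov]; exact mem_univ x
        rcases hxu with h4 | h4 | h4
        · exact Or.inl (hWA h4)
        · rcases hAB (Or.inr h4) with h5 | h5
          · exact Or.inl h5
          · exact absurd ⟨h4, h5⟩ hx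
        · exact Or.inr h4
      · rintro (h4 | h4) ⟨h5, h6⟩
        · exact disjoint_left.1 hd h4 h6
        · exact disjoint_left.1 hPR h5 h4
    have h4 : IsClopen (P ∩ B) := ⟨h1, by rw [← isClosed_compl_iff, h3]; exact h2⟩
    rcases isClopen_iff.1 h4 with h5 | h5
    · intro x hx
      rcases hx with hx | hx
      · exact hWA hx
      · rcases hAB (Or.inr hx) with h6 | h6
        · exact h6
        · exfalso
          have : x ∈ P ∩ B := ⟨hx, h6⟩
          rw [h5] at this
          exact this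
    · exfalso
      obtain ⟨w, hw⟩ := hWc.nonempty
      have : w ∈ P ∩ B := by rw [h5]; exact mem_univ w
      exact disjoint_left.1 hd (hWA hw) this.2
  intro A B hA hB hAB hd
  rcases isPreconnected_iff_subset_of_disjoint_closed.1 hWc.isPreconnected A B hA hB
    (subset_union_left.trans hAB) (by rw [hd.inter_eq, inter_empty]) with h | h
  · exact Or.inl (key A B hA hB hAB hd h)
  · exact Or.inr (key B A hB hA (by rwa [union_comm B A]) hd.symm h)

omit [CompactSpace S] [T2Space S] in
/-- In an indecomposable continuum proper subcontinua have no interior points. -/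
theorem T_univ_of_indec (hS : ¬ ∃ A B : Set S, IsClosed A ∧ IsConnected A ∧ A ≠ univ ∧
    IsClosed B ∧ IsConnected B ∧ B ≠ univ ∧ A ∪ B = univ) (x : S) : T ({x} : Set S) = univ := by
  rw [eq_univ_iff_forall]
  intro p
  by_contra hp
  obtain ⟨W, h1, h2, h3, h4⟩ := notMem_T.1 hp
  have hxW : x ∉ W := fun h => disjoint_left.1 h4 h rfl
  have hWne : W ≠ univ := fun h => hxW (by rw [h]; exact mem_univ x)
  have hpc : p ∉ closure Wᶜ := by
    rw [closure_compl]
    exact fun h => h (mem_interior_iff_mem_nhds.2 h3)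
  have hcov : W ∪ closure Wᶜ = univ := by
    rw [eq_univ_iff_forall]
    intro z
    by_cases hz : z ∈ W
    · exact Or.inl hz
    · exact Or.inr (subset_closure hz)
  by_cases hc : IsPreconnected (closure Wᶜ)
  · exact hS ⟨W, closure Wᶜ, h1, h2, hWne, isClosed_closure, ⟨⟨x, subset_closure hxW⟩, hc⟩,
      fun h => hpc (by rw [h]; exact mem_univ p), hcov⟩
  · rw [isPreconnected_iff_subset_of_fully_disjoint_closed isClosed_closure] at hc
    push Not at hc
    obtain ⟨P, R, hP, hR, hPRu, hPR, hn1, hn2⟩ := hc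
    set P' := closure Wᶜ ∩ P with hP'
    set R' := closure Wᶜ ∩ R with hR'
    have hP'c : IsClosed P' := isClosed_closure.inter hP
    have hR'c : IsClosed R' := isClosed_closure.inter hR
    have hPR' : Disjoint P' R' := hPR.mono inter_subset_right inter_subset_right
    have hcov' : W ∪ (P' ∪ R') = univ := by
      rw [hP', hR', ← inter_union_distrib_left, inter_eq_left.2 hPRu, hcov]
    -- both parts contain points outside `W`
    have hout : ∀ A B : Set S, IsClosed A → IsClosed B → Disjoint A B → closure Wᶜ ⊆ A ∪ B →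
        ¬ closure Wᶜ ⊆ A → ∃ z, z ∉ W ∧ z ∈ B ∧ z ∉ A := by
      intro A B hA hB hd hAB hn
      by_contra hcon
      push Not at hcon
      apply hn
      refine closure_minimal ?_ hA
      intro z hz
      rcases hAB (subset_closure hz) with h5 | h5
      · exact h5
      · exact hcon z hz h5
    obtain ⟨a, ha1, ha2, ha3⟩ := hout P R hP hR hPR hPRu hn1
    obtain ⟨b, hb1, hb2, hb3⟩ := hout R P hR hP hPR.symm (by rwa [union_comm R P]) hn2
    refine hS ⟨W ∪ P', W ∪ R', h1.union hP'c, conn_union h1 h2 hP'c hR'c hPR' hcov', ?_,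
      h1.union hR'c, conn_union h1 h2 hR'c hP'c hPR'.symm (by rwa [union_comm R' P']), ?_, ?_⟩
    · intro h
      have : a ∈ W ∪ P' := by rw [h]; exact mem_univ a
      rcases this with h5 | h5
      · exact ha1 h5
      · exact ha3 h5.2
    · intro h
      have : b ∈ W ∪ R' := by rw [h]; exact mem_univ b
      rcases this with h5 | h5
      · exact hb1 h5
      · exact hb3 h5.2
    · rw [← hcov']
      ext z
      simp only [mem_union]
      tauto

end

end Pool.Agent.H2.JT
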